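import Pool.Agent.Helper16.BZ.Stmts
import Pool.Agent.Helper2.AZ.CTH

/-!
CTH2: Moebius disjointness for one family of elements transformed by a cocycle over a good system.
-/

open Finset Filter MeasureTheory Topology
open scoped ComplexConjugate InnerProductSpace

namespace Pool.Agent.Helper2.BZ.CTH2

open Pool.Agent.Helper16.AZ (T E Op mm unitary_norm)
open Pool.Agent.Helper16.BZ
open Pool.Agent.Helper16.MD (MS)
open Pool.Agent.Helper2.AZ.CTH (cth_op cth_op_norm cth_op_unitary cth_smul_unitary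
  cth_op_continuous)
open Pool.Agent.Helper40.Mob (IsState TwistedDisjoint)

theorem cthb_co_smul {X : Type} {d : ℕ} (S : X → X) (φ : X → Op d) (z : ℂ) (n : ℕ) (x : X) :
    co S (fun y => z • φ y) n x = z ^ n • co S φ n x := by
  induction n with
  | zero => simp
  | succ n ih =>
    rw [co_succ, co_succ, ih, smul_mul_smul_comm, pow_succ, mul_comm (z ^ n) z]

theorem cthb_LM {X : Type} [MetricSpace X] {d : ℕ} (Φ : X → Matrix (Fin d) (Fin d) ℂ) (z : ℂ)
    (hz : ‖z‖ = 1) (h : LMM Φ) : LM (fun x => z • cth_op (Φ x)) := by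
  intro ε hε
  set ε' : ℝ := ε / ((d : ℝ) * d + 1) with hε'
  have hd : (0 : ℝ) < (d : ℝ) * d + 1 := by positivity
  have hε'0 : 0 < ε' := div_pos hε hd
  have key : ∀ i j : Fin d, ∀ᶠ t in 𝓝[>] (0 : ℝ), ∀ x y : X, dist x y ≤ t →
      ‖Φ x i j - Φ y i j‖ ≤ ε' / (-Real.log t) := by
    intro i j
    obtain ⟨t₀, h0, _, h2⟩ := h i j ε' hε'0
    filter_upwards [Ioc_mem_nhdsGT h0] with t ht using h2 t ht.1 ht.2
  have key2 : ∀ᶠ t in 𝓝[>] (0 : ℝ), ∀ i j : Fin d, ∀ x y : X, dist x y ≤ t →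
      ‖Φ x i j - Φ y i j‖ ≤ ε' / (-Real.log t) :=
    Filter.eventually_all.2 fun i => Filter.eventually_all.2 fun j => key i j
  obtain ⟨u, hu0, hu⟩ := mem_nhdsGT_iff_exists_Ioo_subset.1 key2
  have hu0' : (0 : ℝ) < u := hu0
  refine ⟨min (u / 2) (1 / 2), by positivity, ?_, ?_⟩
  · exact lt_of_le_of_lt (min_le_right _ _) (by norm_num)
  · intro t ht0 ht x y hdist
    have ht1 : t ∈ Set.Ioo 0 u := ⟨ht0, lt_of_le_of_lt (ht.trans (min_le_left _ _)) (by linarith)⟩
    have ht2 : t ≤ 1 / 2 := ht.trans (min_le_right _ _)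
    have hlog : 0 ≤ -Real.log t := by
      have := Real.log_nonpos ht0.le (by linarith : t ≤ 1)
      linarith
    have hk := hu ht1
    simp only [Set.mem_ofPred_eq] at hk
    have e1 : z • cth_op (Φ x) - z • cth_op (Φ y) = z • cth_op (Φ x - Φ y) := by
      have e2 : cth_op (Φ x - Φ y) = cth_op (Φ x) - cth_op (Φ y) :=
        map_sub (Matrix.toEuclideanCLM (𝕜 := ℂ) (n := Fin d)) _ _
      rw [e2]
      exact (smul_sub z (cth_op (Φ x)) (cth_op (Φ y))).symm
    rw [e1, norm_smul, hz, one_mul]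
    refine (cth_op_norm _).trans ?_
    have hb : ∑ i : Fin d, ∑ j : Fin d, ‖(Φ x - Φ y) i j‖ ≤
        ∑ i : Fin d, ∑ j : Fin d, ε' / (-Real.log t) := by
      refine Finset.sum_le_sum fun i _ => Finset.sum_le_sum fun j _ => ?_
      rw [Matrix.sub_apply]
      exact hk i j x y hdist
    refine hb.trans ?_
    simp only [Finset.sum_const, Finset.card_univ, Fintype.card_fin, nsmul_eq_mul]
    have hq : ((d : ℝ) * ((d : ℝ) * (ε' / (-Real.log t)))) =
        ((d : ℝ) * d * ε') / (-Real.log t) := by ring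
    rw [hq]
    have h3 : (d : ℝ) * d * ε' ≤ ε := by
      rw [hε', mul_div_assoc', div_le_iff₀ hd]
      nlinarith [hε, mul_nonneg (Nat.cast_nonneg (α := ℝ) d) (Nat.cast_nonneg (α := ℝ) d)]
    exact div_le_div_of_nonneg_right h3 hlog

universe u

theorem cthb_res (hRMF : ST_RMF2.{u}) (hCIT : ST_CIT2.{u}) : ST_CTH2.{u} := by
  intro A _ X _ _ d S α π Φ v hGood hRot hFam f i ρ hρ z hz
  obtain ⟨hU, hL, hv⟩ := hFam
  set φ : X → Op d := fun x => cth_op (Φ x) with hφ
  have hφu : ∀ x, φ x ∈ unitary (Op d) := fun x => cth_op_unitary (hU x)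
  have hφc : Continuous φ := cth_op_continuous.comp Φ.continuous
  set φz : X → Op d := fun x => z • φ x with hφz
  have hUC : UC φz := ⟨hφc.const_smul z, fun x => cth_smul_unitary z hz (hφu x)⟩
  have hLM : LM φz := cthb_LM (fun x => Φ x) z hz hL
  choose F hF1 hF2 using fun n => hCIT A X d S α π Φ v hRot ⟨hU, hL, hv⟩ n i f
  have hF1' : ∀ (n : ℕ) (j : Fin d) (x : X), F n j x = f (S^[n] x) *
      inner ℂ (EuclideanSpace.single i (1 : ℂ))
      (co S φ n x (EuclideanSpace.single j (1 : ℂ))) := hF1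
  have hFn : ∀ (n : ℕ) (j : Fin d) (x : X), ‖F n j x‖ ≤ ‖f‖ := by
    intro n j x
    rw [hF1', norm_mul]
    have h1 : ‖f (S^[n] x)‖ ≤ ‖f‖ := f.norm_coe_le_norm _
    have h2 : ‖(inner ℂ (EuclideanSpace.single i (1 : ℂ))
      (co S φ n x (EuclideanSpace.single j (1 : ℂ))) : ℂ)‖ ≤ 1 := by
      refine (norm_inner_le_norm _ _).trans ?_
      rw [unitary_norm (co_unitary S φ hφu n x)]
      simp
    calc _ ≤ ‖f‖ * 1 := mul_le_mul h1 h2 (norm_nonneg _) (norm_nonneg _)
      _ = ‖f‖ := mul_one _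
  let G : ℕ → Fin d → C(X, ℂ) := fun N j =>
    ((N : ℂ))⁻¹ • ∑ n ∈ Icc 1 N, (((ArithmeticFunction.moebius n : ℤ) : ℂ) * z ^ n) • F n j
  have hG : ∀ N j x, G N j x = ((N : ℂ))⁻¹ *
      ∑ n ∈ Icc 1 N, (((ArithmeticFunction.moebius n : ℤ) : ℂ) * z ^ n) * F n j x := by
    intro N j x
    simp only [G, ContinuousMap.coe_smul, Pi.smul_apply, smul_eq_mul]
    congr 1
    rw [ContinuousMap.sum_apply]
    rfl
  have hGb : ∀ N j x, ‖G N j x‖ ≤ ‖f‖ := by
    intro N j x
    rw [hG, norm_mul, norm_inv, Complex.norm_natCast]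
    have hs : ‖∑ n ∈ Icc 1 N, (((ArithmeticFunction.moebius n : ℤ) : ℂ) * z ^ n) * F n j x‖ ≤
        (N : ℝ) * ‖f‖ := by
      refine (norm_sum_le _ _).trans ?_
      have : ∀ n ∈ Icc 1 N,
          ‖(((ArithmeticFunction.moebius n : ℤ) : ℂ) * z ^ n) * F n j x‖ ≤ ‖f‖ := by
        intro n _
        rw [norm_mul, norm_mul, norm_pow, hz, one_pow, mul_one]
        have hm : ‖((ArithmeticFunction.moebius n : ℤ) : ℂ)‖ ≤ 1 := by
          rw [Complex.norm_intCast]
          exact_mod_cast ArithmeticFunction.abs_moebius_le_one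
        calc _ ≤ 1 * ‖f‖ := mul_le_mul hm (hFn n j x) (norm_nonneg _) zero_le_one
          _ = ‖f‖ := one_mul _
      refine (Finset.sum_le_sum this).trans ?_
      simp
    rcases Nat.eq_zero_or_pos N with h0 | h0
    · subst h0; simp
    · have hN : (0 : ℝ) < N := by exact_mod_cast h0
      rw [inv_mul_le_iff₀ hN]
      exact hs
  have hG0 : ∀ j x, Tendsto (fun N => G N j x) atTop (𝓝 0) := by
    intro j x
    have hvc : Continuous (fun y : X => (conj (f y)) • (EuclideanSpace.single i (1 : ℂ) : E d)) :=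
      (Complex.continuous_conj.comp f.continuous).smul continuous_const
    have h := hGood d φz (fun y => (conj (f y)) • (EuclideanSpace.single i (1 : ℂ) : E d))
      (EuclideanSpace.single j (1 : ℂ)) x hUC hLM hvc
    refine h.congr fun N => ?_
    rw [hG, MS, div_eq_inv_mul]
    congr 1
    refine Finset.sum_congr rfl fun n _ => ?_
    rw [hF1', ff, hφz, cthb_co_smul, smul_apply, inner_smul_right, inner_smul_left,
      Complex.conj_conj]
    ring
  have hfin : ∀ j, Tendsto (fun N => ρ (π (G N j) * v j)) atTop (𝓝 0) := fun j =>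
    hRMF A X π ρ (v j) (fun N => G N j) ‖f‖ hρ (fun N x => hGb N j x) (fun x => hG0 j x)
  have hsum : Tendsto (fun N => ∑ j, ρ (π (G N j) * v j)) atTop (𝓝 0) := by
    have := tendsto_finsetSum (Finset.univ : Finset (Fin d)) fun j _ => hfin j
    simpa using this
  refine hsum.congr fun N => ?_
  have e1 : ∀ j, ρ (π (G N j) * v j) = ((N : ℂ))⁻¹ *
      ∑ n ∈ Icc 1 N, (((ArithmeticFunction.moebius n : ℤ) : ℂ) * z ^ n) * ρ (π (F n j) * v j) := by
    intro j
    simp only [G, map_smul, map_sum, smul_mul_assoc, Finset.sum_mul, smul_eq_mul]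
  rw [Finset.sum_congr rfl fun j _ => e1 j, ← Finset.mul_sum, Finset.sum_comm, div_eq_inv_mul]
  congr 1
  refine Finset.sum_congr rfl fun n _ => ?_
  rw [hF2 n, map_sum, Finset.mul_sum]

end Pool.Agent.Helper2.BZ.CTH2
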